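import Pool.Agent.Helper57.SS.Goals2

/-! # Packet SS2-EF: from standard Borel spaces to arbitrary spaces -/

set_option autoImplicit false

namespace Pool.Agent.Helper40.SSEF

open MeasureTheory ProbabilityTheory Filter Topology Pool.Agent.Helper57.SS

/-- the sequence space -/
abbrev Sq := ℤ → ℝ × ℝ

/-- the shift -/
def shift : Sq ≃ᵐ Sq where
  toFun u n := u (n + 1)
  invFun u n := u (n - 1)
  left_inv u := by funext n; simp
  right_inv u := by funext n; simp
  measurable_toFun := measurable_pi_iff.2 fun n => measurable_pi_apply (n + 1)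
  measurable_invFun := measurable_pi_iff.2 fun n => measurable_pi_apply (n - 1)

theorem shift_apply (u : Sq) (n : ℤ) : shift u n = u (n + 1) := rfl

/-- truncated first coordinate -/
noncomputable def c1 (u : Sq) : ℝ := max (-1) (min 1 (u 0).1)

/-- truncated second coordinate -/
noncomputable def c2 (u : Sq) : ℝ := max (-1) (min 1 (u 0).2)

theorem c1_bd : Bd c1 := by
  refine ⟨?_, fun u => ?_⟩
  · exact measurable_const.max (measurable_const.min (measurable_fst.comp (measurable_pi_apply 0)))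
  · rw [abs_le]
    exact ⟨le_max_left _ _, max_le (by norm_num) (min_le_left _ _)⟩

theorem c2_bd : Bd c2 := by
  refine ⟨?_, fun u => ?_⟩
  · exact measurable_const.max (measurable_const.min (measurable_snd.comp (measurable_pi_apply 0)))
  · rw [abs_le]
    exact ⟨le_max_left _ _, max_le (by norm_num) (min_le_left _ _)⟩

theorem trunc_eq {y : ℝ} (h : |y| ≤ 1) : max (-1) (min 1 y) = y := by
  rw [abs_le] at h
  rw [min_eq_right h.2, max_eq_right h.1]

section
variable {α : Type} [MeasurableSpace α]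

/-- the factor map -/
def pr (T : α ≃ᵐ α) (f g : α → ℝ) (x : α) : Sq := fun n => (f (zp T n x), g (zp T n x))

theorem pr_meas (hZ : G_ZP) (T : α ≃ᵐ α) {f g : α → ℝ} (hf : Bd f) (hg : Bd g) : Measurable (pr T f g) := by
  have hm := (hZ α T).2.2.2.2.1
  exact measurable_pi_iff.2 fun n => (hf.1.comp (hm n)).prodMk (hg.1.comp (hm n))

theorem pr_step (hZ : G_ZP) (T : α ≃ᵐ α) (f g : α → ℝ) (x : α) : pr T f g (T x) = shift (pr T f g x) := by
  have h1 : zp T 1 x = T x := by
    have := (hZ α T).2.1 1 x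
    simpa using this
  funext n
  rw [shift_apply]
  have h2 := (hZ α T).2.2.2.1 n 1 x
  rw [h1] at h2
  show (f (zp T n (T x)), g (zp T n (T x))) = (f (zp T (n + 1) x), g (zp T (n + 1) x))
  rw [h2]

theorem pr_iter (hZ : G_ZP) (T : α ≃ᵐ α) (f g : α → ℝ) (k : ℕ) (x : α) :
    pr T f g ((⇑T)^[k] x) = (⇑shift)^[k] (pr T f g x) := by
  induction k generalizing x with
  | zero => rfl
  | succ k ih => rw [Function.iterate_succ_apply, Function.iterate_succ_apply, ih, pr_step hZ]

theorem c1_pr (hZ : G_ZP) (T : α ≃ᵐ α) {f : α → ℝ} (g : α → ℝ) (hf : Bd f) (x : α) : c1 (pr T f g x) = f x := by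
  show max (-1) (min 1 (f (zp T 0 x))) = f x
  rw [(hZ α T).1 x]
  exact trunc_eq (hf.2 x)

theorem c2_pr (hZ : G_ZP) (T : α ≃ᵐ α) (f : α → ℝ) {g : α → ℝ} (hg : Bd g) (x : α) : c2 (pr T f g x) = g x := by
  show max (-1) (min 1 (g (zp T 0 x))) = g x
  rw [(hZ α T).1 x]
  exact trunc_eq (hg.2 x)

theorem ce_eq (hEB : G_EB) (μ : Measure α) [IsProbabilityMeasure μ] (T : α ≃ᵐ α)
    (hT : MeasurePreserving (⇑T) μ μ) (π : α → Sq) (hπ : Measurable π)
    (hπT : ∀ (k : ℕ) x, π ((⇑T)^[k] x) = (⇑shift)^[k] (π x))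
    (hS : MeasurePreserving (⇑shift) (μ.map π) (μ.map π)) (f : α → ℝ) (hf : Bd f) (c : Sq → ℝ) (hc : Bd c)
    (hcf : ∀ x, c (π x) = f x) [IsProbabilityMeasure (μ.map π)] :
    ∀ᵐ x ∂μ, ((μ.map π)[c | MeasurableSpace.invariants (⇑shift)]) (π x) =
      (μ[f | MeasurableSpace.invariants (⇑T)]) x := by
  have h1 := ae_of_ae_map hπ.aemeasurable (hEB Sq (μ.map π) (⇑shift) hS c hc)
  have h2 := hEB α μ (⇑T) hT f hf
  filter_upwards [h1, h2] with x hx1 hx2
  have h3 : ∀ k : ℕ, c ((⇑shift)^[k] (π x)) = f ((⇑T)^[k] x) := fun k => by rw [← hπT, hcf]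
  simp only [h3] at hx1
  exact tendsto_nhds_unique hx1 hx2

end

theorem gEF : G_EF := by
  intro hEC hEB hZ α _ μ _ T hT a b hab f g hf hg hspec
  let π : α → Sq := pr T f g
  have hπ : Measurable π := pr_meas hZ T hf hg
  have hprob : IsProbabilityMeasure (μ.map π) := Measure.isProbabilityMeasure_map hπ.aemeasurable
  have hS : MeasurePreserving (⇑shift) (μ.map π) (μ.map π) := by
    refine ⟨shift.measurable, ?_⟩
    have h1 : (⇑shift) ∘ π = π ∘ (⇑T) := by
      funext x
      exact (pr_step hZ T f g x).symm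
    rw [Measure.map_map shift.measurable hπ, h1, ← Measure.map_map hπ hT.measurable, hT.map_eq]
  have hπT : ∀ (k : ℕ) x, π ((⇑T)^[k] x) = (⇑shift)^[k] (π x) := fun k x => pr_iter hZ T f g k x
  have hc1 : ∀ x, c1 (π x) = f x := fun x => c1_pr hZ T g hf x
  have hc2 : ∀ x, c2 (π x) = g x := fun x => c2_pr hZ T f hg x
  -- singular spectral measure
  have hspec' : SingSpec (⇑shift) (μ.map π) c1 := by
    obtain ⟨σ, ⟨hσf, hσ⟩, hsing⟩ := hspec
    refine ⟨σ, ⟨hσf, fun n => ?_⟩, hsing⟩
    rw [hσ n]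
    congr 1
    have hm : Measurable fun u : Sq => c1 ((⇑shift)^[n] u) * c1 u :=
      (c1_bd.1.comp (shift.measurable.iterate n)).mul c1_bd.1
    rw [integral_map hπ.aemeasurable hm.aestronglyMeasurable]
    refine integral_congr_ae (Eventually.of_forall fun x => ?_)
    show f ((⇑T)^[n] x) * f x = c1 ((⇑shift)^[n] (π x)) * c1 (π x)
    rw [← hπT, hc1, hc1]
  have hmain := hEC Sq (μ.map π) shift hS a b hab c1 c2 c1_bd c2_bd hspec'
  have hf1 := ce_eq hEB μ T hT π hπ hπT hS f hf c1 c1_bd hc1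
  have hg1 := ce_eq hEB μ T hT π hπ hπT hS g hg c2 c2_bd hc2
  unfold CvI at hmain ⊢
  refine hmain.congr fun N => ?_
  have hAv : Measurable (Av shift shift a b c1 c2 N) := by
    unfold Av
    refine Measurable.const_mul ?_ _
    refine Finset.measurable_sum _ fun k _ => ?_
    exact (c1_bd.1.comp (shift.measurable.iterate _)).mul (c2_bd.1.comp (shift.measurable.iterate _))
  have hm1 : Measurable ((μ.map π)[c1 | MeasurableSpace.invariants (⇑shift)]) :=
    (stronglyMeasurable_condExp.mono (MeasurableSpace.invariants_le _)).measurable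
  have hm2 : Measurable ((μ.map π)[c2 | MeasurableSpace.invariants (⇑shift)]) :=
    (stronglyMeasurable_condExp.mono (MeasurableSpace.invariants_le _)).measurable
  have hm : Measurable fun u : Sq => (Av shift shift a b c1 c2 N u -
      ((μ.map π)[c1 | MeasurableSpace.invariants (⇑shift)]) u *
      ((μ.map π)[c2 | MeasurableSpace.invariants (⇑shift)]) u) ^ 2 :=
    (hAv.sub (hm1.mul hm2)).pow_const 2
  rw [integral_map hπ.aemeasurable hm.aestronglyMeasurable]
  refine integral_congr_ae ?_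
  filter_upwards [hf1, hg1] with x hx1 hx2
  have hA : Av shift shift a b c1 c2 N (π x) = Av T T a b f g N x := by
    unfold Av
    congr 1
    refine Finset.sum_congr rfl fun k _ => ?_
    rw [← hπT, ← hπT, hc1, hc2]
  show (Av shift shift a b c1 c2 N (π x) -
      ((μ.map π)[c1 | MeasurableSpace.invariants (⇑shift)]) (π x) *
      ((μ.map π)[c2 | MeasurableSpace.invariants (⇑shift)]) (π x)) ^ 2 = _
  rw [hx1, hx2, hA]

end Pool.Agent.Helper40.SSEF
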